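import Pool.Agent.Lib.helper21.Clone2

set_option autoImplicit false

namespace Pool.Agent.Results.MP_7eeb8f_lc.Yes

open Primrec Pool.Agent.H.MP_d04dff_lc Pool.Agent.Lib.helper21.KC

/-- The subtuple of `z` with indices in `S`. -/
def sub {k : ℕ} (z : Fin k → List Bool) (S : Finset (Fin k)) : List (List Bool) :=
  ((List.finRange k).filter (· ∈ S)).map z

def mask {k : ℕ} (S : Finset (Fin k)) : List ℕ := ((List.finRange k).filter (· ∈ S)).map Fin.val

theorem sub_eq {k : ℕ} {f : Fin k → Str} {z : List Str} (h : ∀ i, f i = co z i)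
    (S : Finset (Fin k)) : sub f S = (mask S).map (co z) := by
  rw [sub, mask, List.map_map]
  exact List.map_congr_left fun i _ => h i

theorem sub_cons {k : ℕ} (y : Fin k → Str) (S : Finset (Fin (k + 1))) : ∃ l,
    (∀ x, sub (Fin.cons x y) S = x :: l) ∨ ∀ x, sub (Fin.cons x y) S = l := by
  refine ⟨((List.finRange k).filter (·.succ ∈ S)).map y, (em (0 ∈ S)).imp ?_ ?_⟩ <;>
    intro h x <;> simp [sub, List.finRange_succ, h, List.filter_map, Function.comp_def]

theorem result (U : List Bool →. List Bool) (hU : Opt U) (e : List (List Bool) → List Bool)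
    (he : Computable e) (hi : Function.Injective e) (k : ℕ) :
    ∃ c : ℝ, ∀ x x' : List Bool, K U x = K U x' → ∀ y : Fin k → List Bool,
      ∃ y' : Fin k → List Bool, ∀ S : Finset (Fin (k + 1)), S.Nonempty →
        |(K U (e (sub (Fin.cons x y) S)) : ℝ) - K U (e (sub (Fin.cons x' y') S))| ≤
          c * Real.logb 2 (2 + (x.length + x'.length + ∑ i, (y i).length : ℕ)) := by
  classical
  obtain ⟨M, hM, hM'⟩ : ∃ M : List (List ℕ), (∀ S : Finset (Fin (k + 1)), mask S ∈ M) ∧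
      ∀ S ∈ M, S.length ≤ k + 1 := ⟨(Finset.univ : Finset (Finset (Fin (k + 1)))).toList.map mask,
    fun S => List.mem_map_of_mem (by simp), fun S hS => by
      obtain ⟨T, -, rfl⟩ := List.mem_map.1 hS
      simpa [mask] using List.length_filter_le (· ∈ T) (List.finRange (k + 1))⟩
  let vec : List Str → List Str := fun z => e z :: co z 0 :: M.map fun S => e (S.map (co z))
  have hv : Computable vec := Computable.list_cons.comp he (Computable.list_cons.comp
    (co_prim .id (const 0)).to_comp (maps_comp _ (fun S => he.comp (sel_prim S).to_comp) M))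
  obtain ⟨Q, c, sQ, iQ, hQ⟩ := clone (r := M.length + 2) hU (by omega)
    (W := fun v => ∃ z : List Str, z.length = k + 1 ∧ v = vec z)
    (Sig.ex ((Sig.prim (Primrec.eq.comp (list_length.comp snd) (const _))).and
      (Sig.graph hv snd fst)))
    fun v v' ⟨z, _, h1⟩ ⟨z', _, h2⟩ h => by
      rw [h1, h2] at h ⊢
      rw [hi h]
  obtain ⟨en, hen⟩ := Sig.enum (R := fun (m : ℕ) u => K U u ≤ m) (hU.sig snd fst)
  let T : List ℕ → Str → Str → Prop := fun a s s' => ∃ j, Q a.tail.tail.tail j s ∧ ∃ t,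
    (en (a.getD 0 0) t)[a.tail.tail.getD 0 0 * 2 ^ a.tail.getD 0 0 + j]? = some s'
  have g0 : Primrec fun z : ((List ℕ × Str) × Str) × ℕ => z.1.1.1 := fst.comp (fst.comp fst)
  have sT : Sig fun z : (List ℕ × Str) × Str => T z.1.1 z.1.2 z.2 :=
    Sig.ex ((sQ.comp (((tl (tl (tl g0))).pair snd).pair (snd.comp (fst.comp fst)))).and
      (hen.sig (gD g0 0) (nat_add.comp (nat_mul.comp (gD (tl (tl g0)) 0)
        (pow2.comp (gD (tl g0) 0))) snd) (snd.comp fst)))
  have iT : ∀ a s s' u u', T a s s' → T a u u' → (s = u ↔ s' = u') :=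
    fun a s s' u u' ⟨j, h1, t, h2⟩ ⟨j', h3, t', h4⟩ => ⟨fun h => (hen.get h2
      ((iQ _ _ _ _ _ h1 h3).2 h ▸ h4)).1, fun h => (iQ _ _ _ _ _ h1 h3).1
        (Nat.add_left_cancel (hen.inj h2 (h ▸ h4)))⟩
  obtain ⟨c₁, h₁⟩ := hU.closeL sT (M.length + 7) 1
  let R : List ℕ → Str → Str → Prop := fun a u u' => ∃ w : (Str × Str) × List Str,
    T a w.1.1 w.1.2 ∧ u = e (w.1.1 :: w.2) ∧ u' = e (w.1.2 :: w.2)
  have sR : Sig fun z : (List ℕ × Str) × Str => R z.1.1 z.1.2 z.2 :=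
    Sig.ex ((sT.comp (((fst.comp (fst.comp fst)).pair (fst.comp (fst.comp snd))).pair
      (snd.comp (fst.comp snd)))).and ((Sig.graph he (list_cons.comp (fst.comp (fst.comp snd))
        (snd.comp snd)) (snd.comp (fst.comp fst))).and (Sig.graph he (list_cons.comp
          (snd.comp (fst.comp snd)) (snd.comp snd)) (snd.comp fst))))
  obtain ⟨c₂, h₂⟩ := hU.closeL sR (M.length + 7) 1
  obtain ⟨c₃, h₃⟩ := hU.closeL (R := fun a u u' => R a u' u)
    (sR.comp (((fst.comp fst).pair snd).pair (snd.comp fst))) (M.length + 7) 1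
  obtain ⟨b, hb⟩ := hU.base
  obtain ⟨c₄, h₄⟩ := hU.list he hi (k + 1)
  refine ⟨(2 * (((c₁ + c₂ + c₃) * (2 * c + 3) + c) * (c₄ + b + 1 + 2)) : ℕ),
    fun x x' hx y => ?_⟩
  generalize hn : x.length + x'.length + ∑ i, (y i).length = n
  obtain ⟨z, z1, z2⟩ : ∃ z : List Str, z.length = k + 1 ∧
      ∀ i : Fin (k + 1), (Fin.cons x y : Fin (k + 1) → Str) i = co z i :=
    ⟨List.ofFn (Fin.cons x y), List.length_ofFn, fun i => by
      rw [co, List.getD_eq_getElem _ _ (by simpa using i.2), List.getElem_ofFn]⟩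
  have z3 : ∀ i, (co z i).length ≤ n := fun i => by
    rcases lt_or_ge i (k + 1) with h | h
    · rw [← z2 ⟨i, h⟩]
      refine Fin.cases (motive := fun j => ((Fin.cons x y : Fin (k + 1) → Str) j).length ≤ n)
        (by simp; omega) (fun j => ?_) ⟨i, h⟩
      have := Finset.single_le_sum (f := fun i => (y i).length) (fun _ _ => Nat.zero_le _)
        (Finset.mem_univ j)
      simp only [Fin.cons_succ]
      omega
    · rw [co, List.getD_eq_default _ _ (by omega)]
      simp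
  have z4 : co z 0 = x := (z2 0).symm
  obtain ⟨N, hN⟩ : ∃ N, N = (c₄ + b + 1) * (n + 1) := ⟨_, rfl⟩
  have v1 : ∀ (z : List Str) i (h : i < M.length), co (vec z) (i + 2) = e (M[i].map (co z)) :=
    fun z i h => by simp [vec, h]
  have k1 : K U x ≤ N := by
    have := hb x
    have h1 : x.length ≤ n := by omega
    nlinarith
  obtain ⟨p, γ, p1, p2, p3, p4, p5, p6⟩ := hQ (vec z) N ⟨z, z1, rfl⟩ fun i hi => by
    rcases i with _ | _ | i
    · refine (h₄ n z z1.le fun s hs => ?_).trans (by nlinarith)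
      obtain ⟨j, hj, rfl⟩ := List.mem_iff_getElem.1 hs
      simpa [hj] using z3 j
    · exact z4 ▸ k1
    · rw [v1 z i (by omega)]
      refine (h₄ n _ (by simpa using hM' _ (List.getElem_mem _)) fun s hs => ?_).trans
        (by nlinarith)
      obtain ⟨j, -, rfl⟩ := List.mem_map.1 hs
      exact z3 j
  rw [show co (vec z) 1 = x from z4] at p3 p4 p6
  obtain ⟨j, j1, t, j2⟩ := hen.idx (a := K U x) (b := x') hx.ge
    fun h => hU.few (K U x) (h.mono (Nat.le_succ _) fun _ h => h)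
  obtain ⟨u, hu⟩ := p5 (j % 2 ^ γ) (Nat.mod_lt _ (by positivity))
  have t1 : T (K U x :: γ :: (j / 2 ^ γ) :: p) u x' := ⟨_, hu, t, by
    simpa [Nat.div_add_mod'] using j2⟩
  have l1 := lg_pos N
  have t2 : ∀ a ∈ K U x :: γ :: (j / 2 ^ γ) :: p, a ≤ 1 * (2 ^ ((2 * c + 2) * lg N) + 1) := by
    have h1 : ∀ a k, a < 2 ^ k → k ≤ (2 * c + 2) * lg N → a ≤ 1 * (2 ^ ((2 * c + 2) * lg N) + 1) :=
      fun a k h1 h2 => by
        have := Nat.pow_le_pow_right (n := 2) (by norm_num) h2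
        omega
    simp only [List.mem_cons, forall_eq_or_imp]
    refine ⟨h1 _ _ (k1.trans_lt (lt_lg N)) (by nlinarith), h1 _ _ ((p3.trans k1).trans_lt (lt_lg N))
      (by nlinarith), h1 _ (c * lg N + 1) ?_ (by nlinarith),
      fun a ha => h1 _ _ ((p2 a ha).trans_lt (lin_lt c N)) (by nlinarith)⟩
    rw [Nat.div_lt_iff_lt_mul (by positivity), ← pow_add]
    exact j1.trans_le (Nat.pow_le_pow_right (by norm_num) (by omega))
  have t3 : (K U x :: γ :: (j / 2 ^ γ) :: p).length ≤ M.length + 7 := by simp [p1]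
  have t4 := h₁ _ _ _ _ t3 t2 t1 fun s hs => ((iT _ _ _ _ _ hs t1).1 rfl)
  obtain ⟨_, ⟨w, w1, rfl⟩, w2, w3⟩ := p6 _ u _ hu (hx ▸ t4)
  refine ⟨fun i => co w (i + 1), fun S _ => ?_⟩
  obtain ⟨i, i1, i2⟩ := List.mem_iff_getElem.1 (hM S)
  have w4 := w3 (i + 2) (by omega)
  rw [v1 z i i1, v1 w i i1, i2, ← sub_eq z2, ← sub_eq (f := Fin.cons u fun i : Fin k => co w (i + 1))
    (z := w) fun i => Fin.cases w2.symm (fun _ => rfl) i] at w4
  have w5 : K U (e (sub (Fin.cons x' fun i : Fin k => co w (i + 1)) S)) ≤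
      K U (e (sub (Fin.cons u fun i : Fin k => co w (i + 1)) S)) +
        c₂ * lg (2 ^ ((2 * c + 2) * lg N)) ∧
      K U (e (sub (Fin.cons u fun i : Fin k => co w (i + 1)) S)) ≤
      K U (e (sub (Fin.cons x' fun i : Fin k => co w (i + 1)) S)) +
        c₃ * lg (2 ^ ((2 * c + 2) * lg N)) := by
    obtain ⟨l, h | h⟩ := sub_cons (fun i : Fin k => co w (i + 1)) S <;> rw [h, h]
    · refine ⟨h₂ _ _ _ _ t3 t2 ⟨((u, x'), l), t1, rfl, rfl⟩ fun s ⟨q, h1, h2, h3⟩ => ?_,
        h₃ _ _ _ _ t3 t2 ⟨((u, x'), l), t1, rfl, rfl⟩ fun s ⟨q, h1, h2, h3⟩ => ?_⟩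
      · obtain ⟨h4, h5⟩ := List.cons.inj (hi h2)
        rw [h3, h5, (iT _ _ _ _ _ t1 h1).1 h4]
      · obtain ⟨h4, h5⟩ := List.cons.inj (hi h3)
        rw [h2, h5, (iT _ _ _ _ _ t1 h1).2 h4]
    · exact ⟨Nat.le_add_right _ _, Nat.le_add_right _ _⟩
  have l2 : lg N ≤ (c₄ + b + 1 + 2) * lg n := hN ▸ lg_lin _ _
  have l3 : lg (2 ^ ((2 * c + 2) * lg N)) ≤ (2 * c + 3) * lg N := by
    rw [lg_pow]; nlinarith
  generalize lg (2 ^ ((2 * c + 2) * lg N)) = L at *
  have l4 : (c₁ + c₂ + c₃) * L + c * lg N ≤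
      ((c₁ + c₂ + c₃) * (2 * c + 3) + c) * (c₄ + b + 1 + 2) * lg n := by
    have := Nat.mul_le_mul_left (c₁ + c₂ + c₃) l3
    have := Nat.mul_le_mul_left ((c₁ + c₂ + c₃) * (2 * c + 3) + c) l2
    nlinarith
  rw [add_mul, add_mul] at l4
  exact abs_real (by omega) (by omega)

end Pool.Agent.Results.MP_7eeb8f_lc.Yes
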